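import Pool.Agent.T9h3.LN.Spec4

/-!
# Project LN: the local data from the local data over an extension (piece X3)
-/

set_option autoImplicit false
set_option linter.unusedSectionVars false
set_option linter.unusedVariables false
set_option linter.overlappingInstances false

namespace Pool.Agent.T9h77.LN

open Pool.Agent.T9h3 Pool.Agent.T9h3.P Pool.Agent.T9h3.Q Pool.Agent.T9h3.R Pool.Agent.T9h3.H
open Pool.Agent.T9h3.LN
open Pool.Agent.H918R2.Quad

/-- The lattice with the action of the larger group. -/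
noncomputable def bCHL {E M M' K K' : Type} [Field E] [Field M] [Field M'] [Field K] [Field K']
    [Algebra E M] [Algebra E M'] [Algebra M M'] [IsScalarTower E M M'] [FiniteDimensional E M]
    [IsGalois E M] [Algebra M K] [Algebra M' K'] (D₀ : CHL E M K) (i : K →+* K') {a : D₀.Λ → M'}
    (ha0 : a 0 = 1) (haa : ∀ x y, a (x + y) = a x * a y) : CHL E M' K' where
  Λ := D₀.Λ
  i1 := inferInstance
  i2 := inferInstance
  i3 := inferInstance
  i4 := DistribMulAction.compHom D₀.Λ (AlgEquiv.restrictNormalHom M : (M' ≃ₐ[E] M') →* (M ≃ₐ[E] M))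
  χ := fun x => algebraMap M' K' (a x) * i (D₀.χ x)
  χ0 := by rw [ha0, D₀.χ0, map_one, map_one, mul_one]
  χa := by
    intro x y
    rw [haa, D₀.χa, map_mul, map_mul]
    ring

/-- spans under the extension of the constants -/
lemma span_image {M M' K K' : Type} [Field M] [Field M'] [Field K] [Field K'] [Algebra M K]
    [Algebra M' K'] [Algebra M M'] (i : K →+* K')
    (hi : ∀ x : M, i (algebraMap M K x) = algebraMap M' K' (algebraMap M M' x))
    {T1 T2 : Set K} (h : T1 ⊆ Submodule.span M T2) :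
    Submodule.span M' (i '' T1) ≤ Submodule.span M' (i '' T2) := by
  rw [Submodule.span_le]
  rintro _ ⟨y, hy, rfl⟩
  have h1 := h hy
  rw [SetLike.mem_coe] at h1 ⊢
  clear hy
  induction h1 using Submodule.span_induction with
  | mem x hx => exact Submodule.subset_span ⟨x, hx, rfl⟩
  | zero => rw [map_zero]; exact Submodule.zero_mem _
  | add x y _ _ h1 h2 => rw [map_add]; exact Submodule.add_mem _ h1 h2
  | smul c x _ h1 =>
    rw [Algebra.smul_def, map_mul, hi, ← Algebra.smul_def]
    exact Submodule.smul_mem _ _ h1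

lemma CVP_mono {Λ : Type} [AddCommGroup Λ] {P Q : Λ → Prop} {Δ : Set Λ} (h : ∀ v, P v → Q v)
    (hP : CVP P Δ) : CVP Q Δ := by
  intro m hm
  obtain ⟨T, h1, h2, h3⟩ := hP m hm
  exact ⟨T, h1, fun v hv => h v (h2 v hv), h3⟩

set_option maxHeartbeats 1000000 in
theorem loc3 : S_Svr → S_Base → S_Loc3 := by
  intro hSvr hBase k E M M' F K _ _ _ _ _ _ _ _ _ _ _ _ _ _ _ _ _ _ _ _ _ _ _ _ _ _ V 𝔭 hV hfin
    ρ hρ fix D₀ hli hgen γ C hin a ha0 haa hun her
  classical
  have hact : ∀ g x, ∃ c : M, ρ g (D₀.χ x) = algebraMap M K c * D₀.χ (g • x) := fun g x =>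
    ⟨γ g x, C.act g x⟩
  obtain ⟨K', fK', aK', i, ρ', hi, hρ', hρi, hfix', hli', hgen'⟩ :=
    hBase E M M' F K D₀.Λ ρ D₀.χ hρ fix D₀.χ0 D₀.χa hli hgen hact
  -- the algebras
  let aEK : Algebra E K' := ((algebraMap M' K').comp (algebraMap E M')).toAlgebra
  have s1 : IsScalarTower E M' K' := IsScalarTower.of_algebraMap_eq fun x => rfl
  let aFK : Algebra F K' := (i.comp (algebraMap F K)).toAlgebra
  have s2 : IsScalarTower E F K' := by
    refine IsScalarTower.of_algebraMap_eq fun x => ?_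
    change algebraMap M' K' (algebraMap E M' x) = i (algebraMap F K (algebraMap E F x))
    rw [← IsScalarTower.algebraMap_apply E F K, IsScalarTower.algebraMap_apply E M K, hi,
      ← IsScalarTower.algebraMap_apply E M M']
  obtain ⟨ρ₁, hρ₁⟩ : ∃ ρ₁ : (M' ≃ₐ[E] M') →* (K' ≃ₐ[E] K'), ∀ g y, ρ₁ g y = ρ' g y :=
    ⟨{ toFun := fun g => AlgEquiv.ofRingEquiv (f := ρ' g) (fun r => by
          change ρ' g (algebraMap M' K' (algebraMap E M' r)) = algebraMap M' K' (algebraMap E M' r)
          rw [hρ', g.commutes])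
       map_one' := by
        ext y
        change ρ' 1 y = y
        rw [map_one]
        rfl
       map_mul' := by
        intro g h
        ext y
        change ρ' (g * h) y = ρ' g (ρ' h y)
        rw [map_mul]
        rfl }, fun g y => rfl⟩
  have hρ₁M : ∀ g x, ρ₁ g (algebraMap M' K' x) = algebraMap M' K' (g x) := fun g x => by
    rw [hρ₁, hρ']
  have hane : ∀ x, a x ≠ 0 := by
    intro x hx
    have h1 := haa x (-x)
    rw [add_neg_cancel, ha0, hx, zero_mul] at h1
    exact one_ne_zero h1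
  -- the characters
  let D : CHL E M' K' := bCHL D₀ i ha0 haa
  have χ0' : algebraMap M' K' (a 0) * i (D₀.χ 0) = 1 := D.χ0
  have χa' : ∀ x y, algebraMap M' K' (a (x + y)) * i (D₀.χ (x + y)) =
      algebraMap M' K' (a x) * i (D₀.χ x) * (algebraMap M' K' (a y) * i (D₀.χ y)) := D.χa
  have hli2 : LinearIndependent M' (fun x => algebraMap M' K' (a x) * i (D₀.χ x)) := by
    have h1 := hli'.units_smul (fun x => Units.mk0 (a x) (hane x))
    have h2 : (fun x => algebraMap M' K' (a x) * i (D₀.χ x)) =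
        (fun x => Units.mk0 (a x) (hane x)) • (fun x => i (D₀.χ x)) := by
      funext x
      change _ = (Units.mk0 (a x) (hane x)) • i (D₀.χ x)
      rw [Units.smul_def, Units.val_mk0, Algebra.smul_def]
    rw [h2]
    exact h1
  have hback : ∀ x, i (D₀.χ x) = algebraMap M' K' (a x)⁻¹ *
      (algebraMap M' K' (a x) * i (D₀.χ x)) := by
    intro x
    rw [← mul_assoc, ← map_mul, inv_mul_cancel₀ (hane x), map_one, one_mul]
  have hgen2 : IntermediateField.adjoin M'
      (Set.range (fun x => algebraMap M' K' (a x) * i (D₀.χ x))) = ⊤ := by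
    rw [eq_top_iff, ← hgen', IntermediateField.adjoin_le_iff]
    rintro _ ⟨x, rfl⟩
    change i (D₀.χ x) ∈ _
    rw [hback x]
    exact mul_mem (IntermediateField.algebraMap_mem _ _)
      (IntermediateField.subset_adjoin _ _ ⟨x, rfl⟩)
  -- the action on the characters
  have hactM : ∀ (g : M' ≃ₐ[E] M') (x : D₀.Λ),
      ρ₁ g (algebraMap M' K' (a x) * i (D₀.χ x)) =
      algebraMap M' K' (g (a x) * algebraMap M M' (γ (AlgEquiv.restrictNormalHom M g) x)) *
        i (D₀.χ (AlgEquiv.restrictNormalHom M g • x)) := by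
    intro g x
    rw [map_mul, hρ₁M, hρ₁, hρi, C.act, map_mul, hi, map_mul, mul_assoc]
  obtain ⟨ρ₀, hρ₀, act₀⟩ := exists_exact (E := E) (L := D.Λ) (χ := D.χ) D.χ0 D.χa hli2 hgen2
  let f₀ : Fin 0 → AA (integralClosure V M') D.Λ := Fin.elim0
  have N : PRW E ρ₁ D.χ f₀ := by
    refine ⟨D.χ0, D.χa, ?_, ?_, ?_, ?_, ⟨ρ₀, hρ₀, fun _ _ g _ x => act₀ g x⟩, ?_⟩
    · exact hk_empty D.χ0 D.χa hli2
    · intro ℓ Q hQ _ d _ j
      exact j.elim0
    · intro g (x : D₀.Λ)
      obtain ⟨u, hu⟩ := hun g x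
      refine ⟨u, ?_⟩
      change ρ₁ g (algebraMap M' K' (a x) * i (D₀.χ x)) =
        algebraMap M' K' (algebraMap _ M' u) * (algebraMap M' K'
          (a (AlgEquiv.restrictNormalHom M g • x)) * i (D₀.χ (AlgEquiv.restrictNormalHom M g • x)))
      rw [hactM, hu, map_mul, mul_assoc]
      rfl
    · intro 𝔓 p g hg ℓ hℓ Q hQ h1 h2 h3
      refine ⟨Fin.elim0, fun j => j.elim0, ?_⟩
      rw [Matrix.det_fin_zero]
      exact fun h => hQ.ne_top ((Ideal.eq_top_iff_one _).2 h)
    · intro 𝔓 p g hg l hl (x : D₀.Λ)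
      obtain ⟨e, he, h1⟩ := her 𝔓 p g hg l hl x
      refine ⟨e, he, ?_⟩
      change ρ₁ g (algebraMap M' K' (a x) * i (D₀.χ x)) =
        algebraMap M' K' (algebraMap _ M' (1 + e)) * (algebraMap M' K'
          (a (AlgEquiv.restrictNormalHom M g • x)) * i (D₀.χ (AlgEquiv.restrictNormalHom M g • x)))
      rw [hactM, h1, map_mul, mul_assoc]
  -- the invariants
  have fix1 : ∀ y, (∀ g, ρ₁ g y = y) ↔ ∃ z : F, algebraMap F K' z = y := by
    intro y
    constructor
    · intro h
      obtain ⟨z, hz⟩ := hfix' y (fun g => by rw [← hρ₁]; exact h g)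
      exact ⟨z, hz⟩
    · rintro ⟨z, rfl⟩ g
      change ρ₁ g (i (algebraMap F K z)) = i (algebraMap F K z)
      rw [hρ₁, hρi, (fix (algebraMap F K z)).2 ⟨z, rfl⟩]
  have i1 := hV.ded
  have i2 := hV.dedO (M := M')
  have i3 : IsScalarTower V (integralClosure V M') K' := IsScalarTower.of_algebraMap_eq fun x =>
    IsScalarTower.algebraMap_apply E M' K' x
  have i4 : IsScalarTower V F K' :=
    IsScalarTower.of_algebraMap_eq fun x => IsScalarTower.algebraMap_apply E F K' x
  obtain ⟨Θ, hΘ⟩ := exists_DFN (Fin.elim0 : Fin 0 → AA (integralClosure V M') D₀.Λ)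
  have hR : REL D₀ D₀ := fun x => ⟨x, 1, by rw [map_one, one_mul]⟩
  refine ⟨D₀, Θ, hact, hR, hR, fun Δ fin ne st h S hSf hS => ?_⟩
  have hsp : Submodule.span M' (algebraMap F K' '' S) = Submodule.span M' (D.χ '' Δ) := by
    have e1 : algebraMap F K' '' S = i '' (algebraMap F K '' S) := by
      rw [Set.image_image]
      rfl
    have e2 : Submodule.span M' (i '' (algebraMap F K '' S)) =
        Submodule.span M' (i '' (D₀.χ '' Δ)) := by
      apply le_antisymm
      · apply span_image i hi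
        rw [← hS]
        exact Submodule.subset_span
      · apply span_image i hi
        rw [hS]
        exact Submodule.subset_span
    have e3 : Submodule.span M' (i '' (D₀.χ '' Δ)) = Submodule.span M' (D.χ '' Δ) := by
      apply le_antisymm
      · rw [Submodule.span_le]
        rintro _ ⟨_, ⟨x, hx, rfl⟩, rfl⟩
        rw [hback x, ← Algebra.smul_def]
        exact Submodule.smul_mem _ _ (Submodule.subset_span ⟨x, hx, rfl⟩)
      · rw [Submodule.span_le]
        rintro _ ⟨x, hx, rfl⟩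
        change algebraMap M' K' (a x) * i (D₀.χ x) ∈ _
        rw [← Algebra.smul_def]
        exact Submodule.smul_mem _ _ (Submodule.subset_span ⟨_, ⟨x, hx, rfl⟩, rfl⟩)
    rw [e1, e2, e3]
  let Θ' : Set D.Λ := (Θ : Set D₀.Λ)
  have hCV : ∀ g : M' ≃ₐ[E] M', CVP (SVR (orderOf g) (sA D.Λ g) Θ' Δ) Δ := by
    intro g
    have hdvd : orderOf (AlgEquiv.restrictNormalHom M g : M ≃ₐ[E] M) ∣ orderOf g :=
      orderOf_map_dvd _ g
    obtain ⟨d, hd⟩ := hdvd
    have hd1 : 1 ≤ d := by
      rcases Nat.eq_zero_or_pos d with h0 | h0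
      · rw [h0, mul_zero] at hd
        exact absurd hd (orderOf_pos g).ne'
      · exact h0
    refine CVP_mono (fun v hv => ?_) (h (AlgEquiv.restrictNormalHom M g))
    have h1 := hSvr D₀.Λ _ d _ _ _ v hd1 (by
      rw [← sA_pow, pow_orderOf_eq_one, sA_one]) hv
    rw [hd, mul_comm]
    exact h1
  refine hV.glk (gvk_prw (k := V) (O := integralClosure V M') (f := f₀) (χ := D.χ) hρ₁M
    (fun 𝔓 h𝔓 _ => hV.res hfin 𝔓 h𝔓) hin hgen2 fix1 N (Θ := Θ') ?_ fin ne ?_ hCV hSf hsp)
  · intro r
    exact r.elim0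
  · intro g x hx
    exact st _ x hx

end Pool.Agent.T9h77.LN
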