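import Pool.Agent.T9h3.LN.Spec3

/-!
# Piece (L): the abstract local lemma
-/

set_option autoImplicit false
set_option linter.overlappingInstances false

namespace Pool.Agent.T9h77.LN

open Pool.Agent.T9h3.LN

theorem loc : S_Tr2 → S_Loc := by
  intro htr A A' L D D' _ _ _ _ _ _ _ _ _ _ res hres ι hι r W _ hr hW hcop W' hW' S hS S' hSS v'
    hv hvS ν hν hWν hdvd c hc a ha
  obtain ⟨A1, A2, A3, h1, h2, h3⟩ := htr A L D r W hW S hS c hc a ha
  have hm0 : (W.index : ℤ) ≠ 0 := by
    have := Subgroup.index_ne_zero_of_finite (H := W)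
    exact_mod_cast this
  -- Bezout
  obtain ⟨α, β, hab⟩ : ∃ α β : ℤ, α * W.index + β * (r : ℤ) ^ 2 = 1 := by
    have h : IsCoprime (W.index : ℤ) ((r : ℤ) ^ 2) := by
      apply IsCoprime.pow_right
      exact Nat.isCoprime_iff_coprime.mpr hcop
    obtain ⟨α, β, h⟩ := h
    exact ⟨α, β, h⟩
  let n : L →+ ℤ := AddMonoidHom.mk' (fun x => v' (ι (A3 x)) / W.index) (by
    intro x y
    rw [map_add, map_add, map_add]
    exact Int.add_ediv_of_dvd_left (hdvd _))
  have hn : ∀ x, (W.index : ℤ) * n x = v' (ι (A3 x)) := fun x => Int.mul_ediv_cancel' (hdvd _)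
  let b : L →+ A' := AddMonoidHom.mk' (fun x => n x • ν) (by
    intro x y
    rw [map_add, add_smul])
  have hb : ∀ x, b x = n x • ν := fun _ => rfl
  have hz : ∀ (g : D') (k : ℤ) (y : A'), g • (k • y) = k • (g • y) := fun g k y =>
    map_zsmul (DistribSMul.toAddMonoidHom A' g) k y
  have hinv : ∀ (g : D') (x : L), g⁻¹ • x = (res g)⁻¹ • x := fun g x => by
    rw [hres, map_inv]
  let a' : L →+ A' := α • (ι.comp A1) + β • ((r : ℤ) • (ι.comp A2) + b)
  have ha' : ∀ x, a' x = α • ι (A1 x) + β • ((r : ℤ) • ι (A2 x) + n x • ν) := fun _ => rfl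
  have hιz : ∀ (k : ℤ) (y : A), ι (k • y) = k • ι y := fun k y => map_zsmul ι k y
  -- the three relations in `A'`
  have r1 : ∀ (g : D') x, (W.index : ℤ) • ι (c (res g) x) -
      (g • ι (A1 (g⁻¹ • x)) - ι (A1 x)) ∈ S' := by
    intro g x
    have := hSS _ (h1 (res g) x)
    rw [map_sub, map_sub, map_nsmul, ← hι] at this
    rw [hinv, natCast_zsmul]
    exact this
  have r2 : ∀ w ∈ W', ∀ x, (r : ℤ) • ι (c (res w) x) = w • ι (A2 (w⁻¹ • x)) - ι (A2 x) := by
    intro w hw x
    have := congrArg ι (h2 (res w) (hW' w hw) x)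
    rw [map_sub, map_nsmul, ← hι] at this
    rw [hinv, natCast_zsmul]
    exact this
  have r3 : ∀ (g : D') x, (W.index : ℤ) • ((r : ℤ) • ι (c (res g) x) -
      (g • ι (A2 (g⁻¹ • x)) - ι (A2 x))) = g • ι (A3 (g⁻¹ • x)) - ι (A3 x) := by
    intro g x
    have := congrArg ι (h3 (res g) x)
    rw [map_nsmul, map_sub, map_sub, map_sub, map_nsmul, ← hι, ← hι] at this
    rw [hinv, natCast_zsmul, natCast_zsmul]
    exact this
  have vz : ∀ (k : ℤ) (y : A'), v' (k • y) = k * v' y := fun k y => by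
    rw [map_zsmul, smul_eq_mul]
  refine ⟨a', fun g x => ?_, fun w hw x => ?_⟩
  · have e1 := hvS _ (r1 g x)
    rw [map_sub, map_sub, vz, hv] at e1
    have e3 := congrArg v' (r3 g x)
    rw [vz, map_sub, map_sub, map_sub, vz, hv, hv, ← hn, ← hn, ← mul_sub] at e3
    have e4 := mul_left_cancel₀ hm0 e3
    rw [map_sub, map_sub, hv, ha', ha', map_add, map_add, vz, vz, vz, vz, map_add, map_add, vz,
      vz, vz, vz, hν]
    set C := v' (ι (c (res g) x))
    have e5 : C = (α * W.index + β * (r : ℤ) ^ 2) * C := by rw [hab, one_mul]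
    linear_combination e5 + α * e1 + β * r * e4
  · -- `n` is invariant
    have e2 := r2 w hw x
    have e3 := r3 w x
    rw [e2, sub_self, smul_zero] at e3
    have e4 : v' (ι (A3 (w⁻¹ • x))) = v' (ι (A3 x)) := by
      have := congrArg v' e3
      rw [map_zero, map_sub, hv] at this
      linarith
    have e5 : n (w⁻¹ • x) = n x := by
      rw [← hn, ← hn] at e4
      exact mul_left_cancel₀ hm0 e4
    have e1 := r1 w x
    have e6 : ι (c (res w) x) - (w • a' (w⁻¹ • x) - a' x) =
        α • ((W.index : ℤ) • ι (c (res w) x) - (w • ι (A1 (w⁻¹ • x)) - ι (A1 x))) := by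
      rw [ha', ha', e5, smul_add, hz, hz, smul_add, hz, hz, hWν w hw]
      have e7 : ι (c (res w) x) = (α * W.index + β * (r : ℤ) ^ 2) • ι (c (res w) x) := by
        rw [hab, one_smul]
      have e8 : w • ι (A2 (w⁻¹ • x)) = (r : ℤ) • ι (c (res w) x) + ι (A2 x) := by
        rw [e2]
        abel
      rw [e8]
      generalize w • ι (A1 (w⁻¹ • x)) = X1
      generalize ι (A1 x) = X2
      generalize ι (A2 x) = X3
      generalize ι (c (res w) x) = X4 at e7 ⊢
      nth_rewrite 1 [e7]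
      module
    rw [e6]
    exact S'.zsmul_mem e1 α

end Pool.Agent.T9h77.LN
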